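import Pool.Agent.Q108.Tolerance

set_option autoImplicit false

/-!
Tolerance graphs have an efficient local representation.

For `t_v > 0` the length of `[l_v, r_v] ∩ [l_w, r_w]` is at least `t_v` iff
`t_v ≤ r_v - l_v`, `l_w ≤ r_v - t_v`, `l_v + t_v ≤ r_w` and `t_v ≤ r_w - l_w`. Each of the last
three conditions compares a number depending on `v` with a number depending on `w`, and is decided
by two ranks between `0` and `n`. The ranks are encoded with the pairing function, so that the
decoding does not need `n`.
-/

namespace Pool.Agent.Results.MP_04ae81_co.Tolerance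

open Finset

/-- `G` is a tolerance graph: every vertex `v` has a closed interval `[l v, r v]` and a real number
`t v > 0` such that distinct `v`, `w` are adjacent exactly when the length of the intersection of
their intervals is at least `min (t v) (t w)`. -/
def IsTolerance {V : Type} (G : SimpleGraph V) : Prop :=
  ∃ l r t : V → ℝ, (∀ v, l v ≤ r v) ∧ (∀ v, 0 < t v) ∧ ∀ v w, v ≠ w →
    (G.Adj v w ↔ min (t v) (t w) ≤
      (MeasureTheory.volume (Set.Icc (l v) (r v) ∩ Set.Icc (l w) (r w))).toReal)

/-- The graph property `P` has an efficient local representation: there are a symmetric function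
`A` of two positive integers and a positive integer `k` such that each graph on `n` vertices with
property `P` has a labelling of its vertices by positive integers at most `n ^ k` for which distinct
`v`, `w` are adjacent iff `A` is true on their labels. -/
def HasEfficientLocalRepresentation (P : ∀ V : Type, SimpleGraph V → Prop) : Prop :=
  ∃ (A : ℕ+ → ℕ+ → Bool) (k : ℕ), (∀ a b, A a b = A b a) ∧ 0 < k ∧
    ∀ (V : Type) [Fintype V] (G : SimpleGraph V), P V G →
      ∃ ℓ : V → ℕ+, (∀ v, (ℓ v : ℕ) ≤ Fintype.card V ^ k) ∧
        ∀ v w, v ≠ w → (G.Adj v w ↔ A (ℓ v) (ℓ w) = true)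

open Q108.Tolerance

lemma length_iff {a b c d s : ℝ} (hs : 0 < s) :
    s ≤ (MeasureTheory.volume (Set.Icc a b ∩ Set.Icc c d)).toReal ↔
      s ≤ b - a ∧ c ≤ b - s ∧ a + s ≤ d ∧ s ≤ d - c := by
  rw [Set.Icc_inter_Icc, Real.volume_Icc, ENNReal.toReal_ofReal']
  constructor
  · intro h
    have h1 : s ≤ min b d - max a c := by
      rcases le_max_iff.1 h with h | h
      · exact h
      · linarith
    have h2 := min_le_left b d
    have h3 := min_le_right b d
    have h4 := le_max_left a c
    have h5 := le_max_right a c
    refine ⟨?_, ?_, ?_, ?_⟩ <;> linarith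
  · rintro ⟨h1, h2, h3, h4⟩
    apply le_max_of_le_left
    rcases min_cases b d with h | h <;> rcases max_cases a c with h' | h' <;> linarith [h.1, h'.1]

/-- The class of tolerance graphs has an efficient local representation. -/
theorem result : HasEfficientLocalRepresentation (fun _ G => IsTolerance G) := by
  refine ⟨fun a b => decide (test (dec (a - 1)) (dec (b - 1)) ∨ test (dec (b - 1)) (dec (a - 1))),
    16, ?_, by norm_num, ?_⟩
  · intro a b
    simp only [or_comm]
  · intro V _ G hG
    obtain ⟨l, r, t, hlr, ht, hadj⟩ := hG
    classical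
    by_cases hn : Fintype.card V ≤ 1
    · refine ⟨fun _ => 1, fun v => ?_, fun v w hvw => ?_⟩
      · have : 0 < Fintype.card V := Fintype.card_pos_iff.2 ⟨v⟩
        have : Fintype.card V = 1 := by omega
        simp [this]
      · exact absurd (Fintype.card_le_one_iff.1 hn v w) hvw
    · set n := Fintype.card V with hndef
      let X : V → Fin 8 → ℕ := fun v =>
        ![if t v ≤ r v - l v then 1 else 0, lo l (l v), hi l (r v - t v),
          lo (fun u => l u + t u) (l v + t v), hi (fun u => l u + t u) (r v),
          lo t (t v), hi t (r v - l v), 0]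
      have hX : ∀ v i, X v i ≤ n := by
        intro v i
        fin_cases i
        · show (if t v ≤ r v - l v then 1 else 0) ≤ n
          split_ifs <;> omega
        · exact lo_le _ _
        · exact hi_le _ _
        · exact lo_le _ _
        · exact hi_le _ _
        · exact lo_le _ _
        · exact hi_le _ _
        · exact Nat.zero_le _
      have htest : ∀ v w, test (X v) (X w) ↔ t v ≤
          (MeasureTheory.volume (Set.Icc (l v) (r v) ∩ Set.Icc (l w) (r w))).toReal := by
        intro v w
        rw [length_iff (ht v)]
        have e1 : (X v 0 = 1) ↔ t v ≤ r v - l v := by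
          show ((if t v ≤ r v - l v then 1 else 0) = 1) ↔ _
          split_ifs with h <;> simp [h]
        have e2 : (X w 1 < X v 2) ↔ l w ≤ r v - t v := (rank_iff l w (r v - t v)).symm
        have e3 : (X v 3 < X w 4) ↔ l v + t v ≤ r w :=
          (rank_iff (fun u => l u + t u) v (r w)).symm
        have e4 : (X v 5 < X w 6) ↔ t v ≤ r w - l w := (rank_iff t v (r w - l w)).symm
        unfold test
        rw [e1, e2, e3, e4]
      refine ⟨fun v => ⟨enc (X v) + 1, Nat.succ_pos _⟩, fun v => ?_, fun v w hvw => ?_⟩
      · show enc (X v) + 1 ≤ n ^ 16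
        refine (enc_bound (X v) (hX v)).trans ?_
        have h2 : n + 1 ≤ n ^ 2 := by nlinarith
        calc (n + 1) ^ 8 ≤ (n ^ 2) ^ 8 := Nat.pow_le_pow_left h2 8
          _ = n ^ 16 := by ring
      · simp only [PNat.mk_coe, Nat.add_sub_cancel, dec_enc, decide_eq_true_eq]
        rw [hadj v w hvw, htest, htest, min_le_iff, Set.inter_comm (Set.Icc (l w) (r w))]

end Pool.Agent.Results.MP_04ae81_co.Tolerance
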